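import Pool.Agent.WAX.Stmts
import Pool.Agent.ATW.Stmts
import Pool.Agent.ATZ.Stmts2

/-! Squad WAX, row LXC: all inertial quotients, all primes. -/

open scoped BigOperators

noncomputable section

namespace Pool.Agent.PP.TX.H25

open Pool.Agent.Helper51_AWC Pool.Agent.Helper79_WRA Pool.Agent.PP Pool.Agent.PP.KF
open Pool.Agent.PP.K9 Pool.Agent.PP.K9.H97 Pool.Agent.PP.H75 Pool.Agent.PP.T3 Pool.Agent.PP.T2
open Pool.Agent.PP.T5 Pool.Agent.PP.TB

attribute [local instance] Ideal.Quotient.field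

/-- LXC -/
theorem lxc (hBnd : TB.BndStmt) (hSta : TW.StaStmt) : LxcStmt := by
  intro ℓ _ M _ hM G _ _ e V γ hL r hR
  have hZc : Zc V = V := by
    unfold Zc
    refine le_antisymm inf_le_left (le_inf le_rfl fun x hx => ?_)
    rw [Subgroup.mem_centralizer_iff]
    intro y hy
    exact hL.ab y hy x hx
  have hU : Uw (ℓ ^ 0) (Zc V) = V := by
    rw [hZc]
    unfold Uw
    have : (fun x : G => x ^ ℓ ^ 0) '' (V : Set G) = (V : Set G) := by
      simp
    rw [this]
    exact Subgroup.closure_eq V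
  obtain ⟨b', hb, hlo⟩ := hSta ℓ M hM G e V γ hL
  have h := hBnd ℓ M hM G e V r 0 hL.blk hL.tp ⟨V, hZc.ge, by rw [pow_zero, one_mul], hR⟩
    ⟨γ, b', by rw [hU]; exact ⟨hb, hlo⟩⟩
  refine h.trans (le_of_eq ?_)
  congr 1
  unfold cb
  ring

end Pool.Agent.PP.TX.H25
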